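import Pool.Agent.Helper91.PL.SBasic

/-! Module S2 of MP_bae8ce_ag: translates by a root subgroup are nearly orthogonal. -/

set_option autoImplicit false
set_option linter.unusedSectionVars false

open Finset

namespace PL

noncomputable section

variable {k : Type} [Field k] [Fintype k] [DecidableEq k] {N : ℕ}

lemma s2_up_mul (i : Fin N) (w : Fin N → k) (hw : w i = 0) (r r' : k) :
    up i w r * up i w r' = up i w (r + r') := by
  ext a b
  rw [Matrix.mul_apply]
  simp only [up, rk1]
  have h3 : ∀ l, ((if a = l then (1 : k) else 0) +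
        r * (Function.update (fun _ => (0 : k)) i 1 a * w l)) *
      ((if l = b then 1 else 0) + r' * (Function.update (fun _ => (0 : k)) i 1 l * w b)) =
      (if a = l then ((if l = b then 1 else 0) +
        r' * (Function.update (fun _ => (0 : k)) i 1 l * w b)) else 0) +
      (if l = b then r * (Function.update (fun _ => (0 : k)) i 1 a * w l) else 0) := by
    intro l
    by_cases hl : l = i
    · subst hl
      rw [hw]
      split_ifs <;> ring
    · rw [Function.update_of_ne hl]
      split_ifs <;> ring
  rw [Finset.sum_congr rfl fun l _ => h3 l, Finset.sum_add_distrib, Finset.sum_ite_eq,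
    Finset.sum_ite_eq']
  simp only [Finset.mem_univ, if_true]
  ring

lemma s2_up_zero (i : Fin N) (w : Fin N → k) : up i w (0 : k) = 1 := by
  ext a b
  simp only [up, rk1, zero_mul, add_zero, Matrix.one_apply]

lemma s2_sum_update (i : Fin N) (w : Fin N → k) (hw : w i = 0) (χ : Tup N k) (y : k × k) :
    ∑ j, w j • Function.update χ i y j = ∑ j, w j • χ j := by
  apply Finset.sum_congr rfl
  intro j _
  by_cases hj : j = i
  · subst hj
    rw [hw, zero_smul, zero_smul]
  · rw [Function.update_of_ne hj]

/-- `up i w r = dg i r * up i w 1 * dg i r⁻¹` on tuples. -/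
lemma s2_conj (i : Fin N) (w : Fin N → k) (hw : w i = 0) {r : k} (hr : r ≠ 0) (χ : Tup N k) :
    act (up i w r) χ = act (dg i r) (act (up i w 1) (act (dg i r⁻¹) χ)) := by
  have h1 : act (dg i r⁻¹) χ = Function.update χ i (r⁻¹ • χ i) := by
    rw [act_dg]
    funext j
    by_cases hj : j = i
    · subst hj; simp
    · simp [hj]
  rw [h1, act_up, act_up, act_dg, s2_sum_update i w hw]
  funext j
  by_cases hj : j = i
  · subst hj
    simp only [Function.update_self, smul_add, one_smul, smul_smul, mul_inv_cancel₀ hr]
  · simp [hj]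

theorem mixing (a : Tup N k → ℝ) (ha : TInv a) (i : Fin N) (w : Fin N → k) (hw : w i = 0)
    (f : Tup N k → ℝ) :
    ∑ r : k, |ip f (fun χ => a (act (up i w r) χ))| ≤
      Real.sqrt (nr f) * Real.sqrt (qq k * nr a +
        qq k ^ 2 * |ip a (fun χ => a (act (up i w 1) χ))|) := by
  set A : k → Tup N k → ℝ := fun r χ => a (act (up i w r) χ) with hA
  set c := ip a (A 1) with hc
  -- the Gram matrix
  have hinv : ∀ r : k, up i w r * up i w (-r) = 1 := by
    intro r
    rw [s2_up_mul i w hw, add_neg_cancel, s2_up_zero]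
  have hG : ∀ r r' : k, ip (A r) (A r') = ip a (A (r' - r)) := by
    intro r r'
    have h1 := ip_act_right (A := up i w r) (B := up i w (-r)) (hinv r) (A r') a
    rw [ip_comm]
    have h2 : ip (A r') (A r) = ip (fun χ => A r' (act (up i w (-r)) χ)) a := h1
    rw [h2, ip_comm]
    congr 1
    funext χ
    show a (act (up i w r') (act (up i w (-r)) χ)) = a (act (up i w (r' - r)) χ)
    rw [← act_mul, s2_up_mul i w hw, sub_eq_add_neg]
  have hG0 : ip a (A 0) = nr a := by
    rw [← ip_self]
    congr 1
    funext χ
    show a (act (up i w 0) χ) = a χ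
    rw [s2_up_zero, act_one]
  have hG1 : ∀ r : k, r ≠ 0 → ip a (A r) = c := by
    intro r hr
    have h1 : A r = fun χ => A 1 (act (dg i r⁻¹) χ) := by
      funext χ
      show a (act (up i w r) χ) = a (act (up i w 1) (act (dg i r⁻¹) χ))
      rw [s2_conj i w hw hr, ha.act_dg i hr]
    have h2 : dg (N := N) i r⁻¹ * dg i r = 1 := by
      rw [dg_mul, inv_mul_cancel₀ hr, dg_one]
    rw [h1, ip_act_right h2 a (A 1), hc]
    congr 1
    funext χ
    exact ha.act_dg i hr χ
  -- signs
  set e : k → ℝ := fun r => if 0 ≤ ip f (A r) then 1 else -1 with he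
  have he1 : ∀ r, |e r| = 1 := by
    intro r
    simp only [he]
    split_ifs <;> simp
  have he2 : ∀ r, |ip f (A r)| = e r * ip f (A r) := by
    intro r
    simp only [he]
    split_ifs with h
    · rw [abs_of_nonneg h, one_mul]
    · rw [abs_of_neg (not_le.1 h)]; ring
  set S : Tup N k → ℝ := fun χ => ∑ r, e r * A r χ with hS
  have hsum : ∑ r : k, |ip f (A r)| = ip f S := by
    rw [Finset.sum_congr rfl fun r _ => he2 r]
    simp only [ip, hS]
    simp only [Finset.mul_sum]
    rw [Finset.sum_comm]
    exact Finset.sum_congr rfl fun χ _ => Finset.sum_congr rfl fun r _ => by ring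
  have hnr : nr S ≤ qq k * nr a + qq k ^ 2 * |c| := by
    have h1 : nr S = ∑ r, ∑ r', e r * e r' * ip a (A (r' - r)) := by
      have h2 : nr S = ∑ r, ∑ r', e r * e r' * ip (A r) (A r') := by
        rw [← ip_self]
        simp only [ip, hS]
        simp only [Finset.mul_sum, Finset.sum_mul]
        rw [Finset.sum_comm, Finset.sum_congr rfl fun r _ => Finset.sum_comm]
        rw [Finset.sum_comm]
        exact Finset.sum_congr rfl fun χ _ => Finset.sum_congr rfl fun r _ =>
          Finset.sum_congr rfl fun r' _ => by ring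
      rw [h2]
      exact Finset.sum_congr rfl fun r _ => Finset.sum_congr rfl fun r' _ => by rw [hG]
    rw [h1]
    have h3 : ∀ r r' : k, e r * e r' * ip a (A (r' - r)) ≤ (if r' = r then nr a else 0) + |c| := by
      intro r r'
      have h4 : e r * e r' * ip a (A (r' - r)) ≤ |ip a (A (r' - r))| := by
        calc _ ≤ |e r * e r' * ip a (A (r' - r))| := le_abs_self _
          _ = _ := by rw [abs_mul, abs_mul, he1, he1]; ring
      refine h4.trans ?_
      split_ifs with h
      · rw [h, sub_self, hG0, abs_of_nonneg (nr_nonneg a)]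
        linarith [abs_nonneg c]
      · rw [hG1 _ (sub_ne_zero.2 h)]
        linarith
    calc ∑ r, ∑ r', e r * e r' * ip a (A (r' - r))
        ≤ ∑ r : k, ∑ r' : k, ((if r' = r then nr a else 0) + |c|) :=
          Finset.sum_le_sum fun r _ => Finset.sum_le_sum fun r' _ => h3 r r'
      _ = qq k * nr a + qq k ^ 2 * |c| := by
          simp only [Finset.sum_add_distrib, Finset.sum_ite_eq', Finset.mem_univ, if_true,
            Finset.sum_const, Finset.card_univ, nsmul_eq_mul, qq]
          ring
  show ∑ r : k, |ip f (A r)| ≤ _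
  rw [hsum]
  calc ip f S ≤ |ip f S| := le_abs_self _
    _ ≤ Real.sqrt (nr f) * Real.sqrt (nr S) := abs_ip_le f S
    _ ≤ _ := by gcongr

end

end PL
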