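import Pool.Agent.Helper91.PL.Defs

/-! Module A1 of MP_bae8ce_ag: logarithms in `ℚ ⊗ F^*`. -/

set_option autoImplicit false

open scoped TensorProduct

namespace PL

noncomputable section

universe u

variable {F : Type u} [Field F] {G : Type u} [Field G]

theorem lg_zero : lg (0 : F) = 0 := by
  unfold lg
  rw [dif_pos rfl]

lemma a1_lg_of_ne {x : F} (hx : x ≠ 0) :
    lg x = (1 : ℚ) ⊗ₜ[ℤ] Additive.ofMul (Units.mk0 x hx) := by
  unfold lg
  rw [dif_neg hx]

lemma a1_lg_unit (x : Fˣ) : lg (x : F) = (1 : ℚ) ⊗ₜ[ℤ] Additive.ofMul x := by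
  rw [a1_lg_of_ne x.ne_zero, Units.mk0_val]

theorem lg_one : lg (1 : F) = 0 := by
  have h := a1_lg_unit (1 : Fˣ)
  rw [Units.val_one] at h
  rw [h, ofMul_one, TensorProduct.tmul_zero]

theorem lg_mul {x y : F} (hx : x ≠ 0) (hy : y ≠ 0) : lg (x * y) = lg x + lg y := by
  rw [a1_lg_of_ne hx, a1_lg_of_ne hy, a1_lg_of_ne (mul_ne_zero hx hy), ← TensorProduct.tmul_add,
    ← ofMul_mul, Units.mk0_mul]

theorem lg_inv (x : F) : lg x⁻¹ = - lg x := by
  by_cases hx : x = 0
  · rw [hx, inv_zero, lg_zero, neg_zero]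
  · have h1 := lg_mul hx (inv_ne_zero hx)
    rw [mul_inv_cancel₀ hx, lg_one] at h1
    exact (neg_eq_of_add_eq_zero_right h1.symm).symm

theorem lg_pow (x : F) (n : ℕ) (hn : n ≠ 0) : lg (x ^ n) = (n : ℚ) • lg x := by
  by_cases hx : x = 0
  · rw [hx, zero_pow hn, lg_zero, smul_zero]
  · clear hn
    induction n with
    | zero => rw [pow_zero, lg_one, Nat.cast_zero, zero_smul]
    | succ n ih =>
      rw [pow_succ, lg_mul (pow_ne_zero n hx) hx, ih, Nat.cast_succ, add_smul, one_smul]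

theorem lg_neg (x : F) : lg (-x) = lg x := by
  by_cases hx : x = 0
  · rw [hx, neg_zero]
  · have h1 : lg (-1 : F) = 0 := by
      have h2 := lg_pow (-1 : F) 2 two_ne_zero
      rw [neg_one_sq, lg_one] at h2
      rcases smul_eq_zero.1 h2.symm with h3 | h3
      · norm_num at h3
      · exact h3
    rw [neg_eq_neg_one_mul, lg_mul (neg_ne_zero.2 one_ne_zero) hx, h1, zero_add]

/-- Elements with `x ^ m = x`, `m ≥ 2`, have logarithm zero. -/
theorem lg_eq_zero {x : F} {m : ℕ} (hm : 2 ≤ m) (h : x ^ m = x) : lg x = 0 := by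
  have h1 := lg_pow x m (by omega)
  rw [h] at h1
  have h2 : ((m : ℚ) - 1) • lg x = 0 := by
    rw [sub_smul, one_smul, ← h1, sub_self]
  rcases smul_eq_zero.1 h2 with h3 | h3
  · exfalso
    have h4 : (2 : ℚ) ≤ m := by exact_mod_cast hm
    linarith
  · exact h3

/-- `V F` is spanned by logarithms. -/
theorem span_lg : Submodule.span ℚ (Set.range (lg : F → V F)) = ⊤ := by
  rw [eq_top_iff]
  intro v _
  induction v using TensorProduct.induction_on with
  | zero => exact Submodule.zero_mem _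
  | tmul q x =>
    have h1 : (q ⊗ₜ[ℤ] x : V F) = q • lg ((Additive.toMul x : Fˣ) : F) := by
      rw [a1_lg_unit, TensorProduct.smul_tmul', smul_eq_mul, mul_one, ofMul_toMul]
    rw [h1]
    exact Submodule.smul_mem _ _ (Submodule.subset_span ⟨_, rfl⟩)
  | add x y hx hy => exact Submodule.add_mem _ (hx trivial) (hy trivial)

/-- A homomorphism from the multiplicative group extends to `V F`. -/
theorem exists_lift {W : Type u} [AddCommGroup W] [Module ℚ W] (f : Fˣ → W)
    (hf : ∀ x y, f (x * y) = f x + f y) :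
    ∃ L : V F →ₗ[ℚ] W, ∀ x : Fˣ, L (lg (x : F)) = f x := by
  let g : Additive Fˣ →+ W := AddMonoidHom.mk' (fun x => f (Additive.toMul x))
    (fun x y => hf _ _)
  let g' : Additive Fˣ →ₗ[ℤ] W := g.toIntLinearMap
  let L : V F →ₗ[ℚ] W := TensorProduct.AlgebraTensorModule.lift
    ((LinearMap.lsmul ℚ (Additive Fˣ →ₗ[ℤ] W)).flip g')
  refine ⟨L, ?_⟩
  intro x
  rw [a1_lg_unit]
  show ((1 : ℚ) • g') (Additive.ofMul x) = f x
  rw [one_smul]
  rfl

/-- Functoriality. -/
theorem exists_map (σ : F →+* G) : ∃ L : V F →ₗ[ℚ] V G, ∀ x, L (lg x) = lg (σ x) := by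
  obtain ⟨L, hL⟩ := exists_lift (W := V G) (fun x : Fˣ => lg (σ (x : F))) (by
    intro x y
    rw [Units.val_mul, map_mul]
    exact lg_mul ((map_ne_zero σ).2 x.ne_zero) ((map_ne_zero σ).2 y.ne_zero))
  refine ⟨L, ?_⟩
  intro x
  by_cases hx : x = 0
  · rw [hx, lg_zero, map_zero, map_zero, lg_zero]
  · exact hL (Units.mk0 x hx)

end

end PL
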